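import Mathlib

/-!
# Triangle-free subgraphs: colourings of vertex sets, the forward-neighbourhood lemma,
# the shift lemma and the splitting lemma
-/

set_option autoImplicit false

open Cardinal Set

namespace Pool.Agent.Helper25.TF

universe u

variable {V : Type u}

/-- `G` restricted to `W` has a proper colouring with values in `α`. -/
def ColOn (G : SimpleGraph V) (W : Set V) (α : Type u) : Prop :=
  ∃ f : V → α, ∀ x ∈ W, ∀ y ∈ W, G.Adj x y → f x ≠ f y

/-- `G` restricted to `W` has a proper colouring with fewer than `κ` colours. -/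
def Sm (G : SimpleGraph V) (κ : Cardinal.{u}) (W : Set V) : Prop :=
  ∃ α : Type u, #α < κ ∧ ColOn G W α

/-- every triangle-free subgraph has a proper colouring with values in `Λ` -/
def Bad (G : SimpleGraph V) (Λ : Type u) : Prop :=
  ∀ H : SimpleGraph V, H ≤ G → H.CliqueFree 3 → ∃ c : V → Λ, ∀ x y, H.Adj x y → c x ≠ c y

theorem ColOn.mono {G : SimpleGraph V} {W W' : Set V} {α : Type u} (h : ColOn G W α)
    (hW : W' ⊆ W) : ColOn G W' α := by
  obtain ⟨f, hf⟩ := h
  exact ⟨f, fun x hx y hy => hf x (hW hx) y (hW hy)⟩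

theorem ColOn.of_card_le {G : SimpleGraph V} {W : Set V} {α β : Type u} (h : ColOn G W α)
    (hle : #α ≤ #β) : ColOn G W β := by
  obtain ⟨f, hf⟩ := h
  obtain ⟨e⟩ := Cardinal.le_def α β |>.1 hle
  exact ⟨fun x => e (f x), fun x hx y hy hxy h => hf x hx y hy hxy (e.injective h)⟩

theorem Sm.mono {G : SimpleGraph V} {κ : Cardinal.{u}} {W W' : Set V} (h : Sm G κ W)
    (hW : W' ⊆ W) : Sm G κ W' := by
  obtain ⟨α, hα, hf⟩ := h
  exact ⟨α, hα, hf.mono hW⟩

theorem Sm.mono_card {G : SimpleGraph V} {κ κ' : Cardinal.{u}} {W : Set V} (h : Sm G κ W)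
    (hκ : κ ≤ κ') : Sm G κ' W := by
  obtain ⟨α, hα, hf⟩ := h
  exact ⟨α, hα.trans_le hκ, hf⟩

theorem Sm.iUnion {G : SimpleGraph V} {κ : Cardinal.{u}} (hκ : κ.IsRegular) {ι : Type u}
    (hι : #ι < κ) {W : ι → Set V} (h : ∀ i, Sm G κ (W i)) : Sm G κ (⋃ i, W i) := by
  classical
  choose α hα f hf using h
  refine ⟨Option (Σ i, α i), ?_, fun x => if hx : ∃ i, x ∈ W i then
    some ⟨hx.choose, f _ x⟩ else none, ?_⟩
  · rw [Cardinal.mk_option, Cardinal.mk_sigma]
    exact Cardinal.add_lt_of_lt hκ.1 (Cardinal.sum_lt_of_isRegular hκ hι hα)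
      (Cardinal.one_lt_aleph0.trans_le hκ.1)
  · intro x hx y hy hxy h
    have hx' : ∃ i, x ∈ W i := mem_iUnion.1 hx
    have hy' : ∃ i, y ∈ W i := mem_iUnion.1 hy
    simp only [dif_pos hx', dif_pos hy', Option.some.injEq] at h
    have h1 := hx'.choose_spec
    have h2 := hy'.choose_spec
    revert h h1 h2
    generalize hx'.choose = i
    generalize hy'.choose = j
    intro h h1 h2
    have hij : i = j := congrArg Sigma.fst h
    subst hij
    exact hf i x h1 y h2 hxy (eq_of_heq (Sigma.mk.inj h).2)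

theorem Sm.union {G : SimpleGraph V} {κ : Cardinal.{u}} (hκ : κ.IsRegular) {A B : Set V}
    (hA : Sm G κ A) (hB : Sm G κ B) : Sm G κ (A ∪ B) := by
  have h : Sm G κ (⋃ i : ULift.{u} Bool, if i.down then A else B) := by
    refine Sm.iUnion hκ ?_ ?_
    · exact (Cardinal.lt_aleph0_of_finite _).trans_le hκ.1
    · rintro ⟨_ | _⟩
      · simpa using hB
      · simpa using hA
  refine h.mono ?_
  rintro x (hx | hx)
  · exact mem_iUnion.2 ⟨⟨true⟩, by simpa using hx⟩
  · exact mem_iUnion.2 ⟨⟨false⟩, by simpa using hx⟩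

theorem Sm.empty {G : SimpleGraph V} {κ : Cardinal.{u}} (hκ : κ.IsRegular) : Sm G κ ∅ := by
  refine ⟨PUnit, ?_, fun _ => PUnit.unit, by simp⟩
  exact (Cardinal.lt_aleph0_of_finite _).trans_le hκ.1

/-- a criterion for being triangle-free with respect to a linear order -/
theorem cliqueFree_of [LinearOrder V] (H : SimpleGraph V)
    (h : ∀ a b c, H.Adj a b → H.Adj a c → H.Adj b c → a < b → a < c → False) :
    H.CliqueFree 3 := by
  classical
  intro s hs
  obtain ⟨a, b, c, hab, hac, hbc, -⟩ := SimpleGraph.is3Clique_iff.1 hs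
  rcases lt_trichotomy a b with h1 | h1 | h1
  · rcases lt_trichotomy a c with h2 | h2 | h2
    · exact h a b c hab hac hbc h1 h2
    · subst h2
      exact H.loopless.irrefl _ hac
    · exact h c a b hac.symm hbc.symm hab h2 (h2.trans h1)
  · subst h1
    exact H.loopless.irrefl _ hab
  · rcases lt_trichotomy b c with h2 | h2 | h2
    · exact h b a c hab.symm hbc hac h1 h2
    · subst h2
      exact H.loopless.irrefl _ hbc
    · exact h c a b hac.symm hbc.symm hab (h2.trans h1) h2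

/-- the forward-neighbourhood lemma (Rödl's argument) -/
theorem rodl [LinearOrder V] {G : SimpleGraph V} {Λ : Type u} (hbad : Bad G Λ) (W : Set V)
    (m : Type u)
    (hg : ∀ v ∈ W, ColOn G {x | x ∈ W ∧ v < x ∧ G.Adj v x} m) : ColOn G W (m → Λ) := by
  classical
  rcases isEmpty_or_nonempty m with hm | hm
  · -- no colours: `W` is empty
    obtain ⟨c, hc⟩ := hbad ⊥ bot_le (SimpleGraph.cliqueFree_bot (by norm_num))
    rcases W.eq_empty_or_nonempty with rfl | ⟨v, hv⟩
    · exact ⟨fun _ => isEmptyElim, by simp⟩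
    · obtain ⟨f, -⟩ := hg v hv
      exact isEmptyElim (f v)
  have hg' : ∀ v, ∃ g : V → m, v ∈ W → ∀ x ∈ W, ∀ y ∈ W, v < x → v < y → G.Adj v x →
      G.Adj v y → G.Adj x y → g x ≠ g y := by
    intro v
    by_cases hv : v ∈ W
    · obtain ⟨f, hf⟩ := hg v hv
      exact ⟨f, fun _ x hx y hy h1 h2 h3 h4 h5 => hf x ⟨hx, h1, h3⟩ y ⟨hy, h2, h4⟩ h5⟩
    · exact ⟨fun _ => Classical.arbitrary m, fun h => absurd h hv⟩
  choose g hg2 using hg'
  let H : m → SimpleGraph V := fun i =>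
    { Adj := fun x y => G.Adj x y ∧ x ∈ W ∧ y ∈ W ∧ ((x < y ∧ g x y = i) ∨ (y < x ∧ g y x = i))
      symm := ⟨fun x y h => ⟨h.1.symm, h.2.2.1, h.2.1, h.2.2.2.symm⟩⟩
      loopless := ⟨fun x h => G.loopless.irrefl x h.1⟩ }
  have hH : ∀ i, ∃ c : V → Λ, ∀ x y, (H i).Adj x y → c x ≠ c y := by
    intro i
    refine hbad (H i) (fun x y h => h.1) (cliqueFree_of _ ?_)
    intro a b c hab hac hbc h1 h2
    have e1 : g a b = i := by
      rcases hab.2.2.2 with h | h
      · exact h.2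
      · exact absurd h.1 (lt_asymm h1)
    have e2 : g a c = i := by
      rcases hac.2.2.2 with h | h
      · exact h.2
      · exact absurd h.1 (lt_asymm h2)
    exact hg2 a hab.2.1 b hab.2.2.1 c hac.2.2.1 h1 h2 hab.1 hac.1 hbc.1 (e1.trans e2.symm)
  choose c hc using hH
  refine ⟨fun x i => c i x, ?_⟩
  intro x hx y hy hxy h
  rcases lt_trichotomy x y with h1 | h1 | h1
  · exact hc (g x y) x y ⟨hxy, hx, hy, Or.inl ⟨h1, rfl⟩⟩ (congrFun h (g x y))
  · subst h1
    exact G.loopless.irrefl _ hxy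
  · exact hc (g y x) x y ⟨hxy, hx, hy, Or.inr ⟨h1, rfl⟩⟩ (congrFun h (g y x))

/-- the linking lemma -/
theorem link {G : SimpleGraph V} {Λ : Type u} (hbad : Bad G Λ) {I : Type u} (F : SimpleGraph I)
    (hF3 : F.CliqueFree 3) (hF : ∀ i : I → Λ, ∃ p q, F.Adj p q ∧ i p = i q) (A : I → Set V)
    (hdisj : ∀ p q x, x ∈ A p → x ∈ A q → p = q) (P : Set V → Prop)
    (hP : ∀ p, ∀ c : V → Λ, ∃ i, P {x | x ∈ A p ∧ c x = i}) :
    ∃ p q, F.Adj p q ∧ ∃ Y ⊆ A p, ∃ Y' ⊆ A q, P Y ∧ P Y' ∧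
      ∀ y ∈ Y, ∀ y' ∈ Y', ¬ G.Adj y y' := by
  classical
  let H : SimpleGraph V :=
    { Adj := fun x y => G.Adj x y ∧ ∃ p q, F.Adj p q ∧ x ∈ A p ∧ y ∈ A q
      symm := ⟨fun x y h => ⟨h.1.symm, by
        obtain ⟨p, q, h1, h2, h3⟩ := h.2
        exact ⟨q, p, h1.symm, h3, h2⟩⟩⟩
      loopless := ⟨fun x h => G.loopless.irrefl x h.1⟩ }
  have hfree : H.CliqueFree 3 := by
    intro s hs
    obtain ⟨x, y, z, hxy, hxz, hyz, -⟩ := SimpleGraph.is3Clique_iff.1 hs
    obtain ⟨p, q, h1, hx, hy⟩ := hxy.2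
    obtain ⟨p', r, h2, hx', hz⟩ := hxz.2
    obtain ⟨q', r', h3, hy', hz'⟩ := hyz.2
    have e1 := hdisj _ _ _ hx hx'
    have e2 := hdisj _ _ _ hy hy'
    have e3 := hdisj _ _ _ hz hz'
    subst e1
    subst e2
    subst e3
    exact hF3 {p, q, r} (SimpleGraph.is3Clique_triple_iff.2 ⟨h1, h2, h3⟩)
  obtain ⟨c, hc⟩ := hbad H (fun x y h => h.1) hfree
  choose i hi using fun p => hP p c
  obtain ⟨p, q, hpq, he⟩ := hF i
  refine ⟨p, q, hpq, {x | x ∈ A p ∧ c x = i p}, fun x hx => hx.1,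
    {x | x ∈ A q ∧ c x = i q}, fun x hx => hx.1, hi p, hi q, ?_⟩
  intro y hy y' hy' hadj
  exact hc y y' ⟨hadj, p, q, hpq, hy.1, hy'.1⟩ (hy.2.trans (he.trans hy'.2.symm))

/-- the arrows of Specker's graph -/
def arrow {T : Type u} [LinearOrder T] (p q : T × T × T) : Prop :=
  p.2.1 < q.1 ∧ q.1 < p.2.2 ∧ p.2.2 < q.2.1 ∧ q.2.1 < q.2.2

/-- Specker's graph on the triples of a linear order -/
def specker (T : Type u) [LinearOrder T] : SimpleGraph (T × T × T) where
  Adj p q := arrow p q ∨ arrow q p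
  symm := ⟨fun _ _ h => h.symm⟩
  loopless := ⟨fun p h => by
    rcases h with h | h <;> exact lt_asymm h.2.2.1 h.2.2.2⟩

theorem specker_free (T : Type u) [LinearOrder T] : (specker T).CliqueFree 3 := by
  classical
  have key : ∀ p q r : T × T × T, arrow p q → arrow q r → (arrow p r ∨ arrow r p) → False := by
    intro p q r h1 h2 h3
    rcases h3 with h3 | h3
    · -- `r.1 < p.2.2 < q.2.1 < r.1`
      exact lt_irrefl _ (h3.2.1.trans (h1.2.2.1.trans h2.1))
    · -- the third coordinates increase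
      exact lt_irrefl _ ((h1.2.2.1.trans h1.2.2.2).trans
        ((h2.2.2.1.trans h2.2.2.2).trans (h3.2.2.1.trans h3.2.2.2)))
  intro s hs
  obtain ⟨p, q, r, hpq, hpr, hqr, -⟩ := SimpleGraph.is3Clique_iff.1 hs
  rcases hpq with h1 | h1 <;> rcases hqr with h2 | h2 <;> rcases hpr with h3 | h3
  · exact key p q r h1 h2 (Or.inl h3)
  · exact key p q r h1 h2 (Or.inr h3)
  · exact key p r q h3 h2 (Or.inl h1)
  · exact key r p q h3 h1 (Or.inl h2)
  · exact key q p r h1 h3 (Or.inl h2)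
  · exact key q r p h2 h3 (Or.inl h1)
  · exact key q p r h1 h3 (Or.inr h2)
  · exact key r q p h2 h1 (Or.inl h3)

/-- every colouring of Specker's graph with `Λ` as its set of colours has a monochromatic edge,
when every map to `Λ` has an unbounded fibre -/
theorem specker_col {T : Type u} [LinearOrder T] [Nonempty T] {Λ : Type u}
    (hT : ∀ f : T → Λ, ∃ j, ∀ s, ∃ t, s < t ∧ f t = j) (i : T × T × T → Λ) :
    ∃ p q, (specker T).Adj p q ∧ i p = i q := by
  choose j2 hj2 using fun a b => hT (fun d => i (a, b, d))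
  choose j1 hj1 using fun a => hT (fun b => j2 a b)
  obtain ⟨j, hj⟩ := hT j1
  obtain ⟨a, -, ha⟩ := hj (Classical.arbitrary T)
  obtain ⟨b, hab, hb⟩ := hj1 a a
  obtain ⟨a', hba', ha'⟩ := hj b
  obtain ⟨d, ha'd, hd⟩ := hj2 a b a'
  obtain ⟨b', hdb', hb'⟩ := hj1 a' d
  obtain ⟨d', hb'd', hd'⟩ := hj2 a' b' b'
  refine ⟨(a, b, d), (a', b', d'), Or.inl ⟨hba', ha'd, hdb', hb'd'⟩, ?_⟩
  rw [hd, hd', hb, hb', ha, ha']

/-- the splitting lemma -/
theorem split (P : Set V → Prop) (hmono : ∀ X Y : Set V, X ⊆ Y → P X → P Y) (h0 : ¬ P ∅)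
    {R : Type u} (r : R → R → Prop) [IsWellOrder R r]
    (hU : ∀ X : (R → Prop) → Set V, P (⋃ b, X b) → ∃ b, P (X b)) (W : Set V) (hW : P W)
    (hs : ∀ X ⊆ W, P X → ∃ Y ⊆ X, P Y ∧ P (X \ Y)) :
    ∃ A : R → Set V, (∀ t, A t ⊆ W ∧ P (A t)) ∧ ∀ s t x, x ∈ A s → x ∈ A t → s = t := by
  classical
  have hσ : ∀ X : Set V, ∃ Y : Set V, X ⊆ W → P X → (Y ⊆ X ∧ P Y ∧ P (X \ Y)) := by
    intro X
    by_cases h1 : X ⊆ W
    · by_cases h2 : P X
      · obtain ⟨Y, hY⟩ := hs X h1 h2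
        exact ⟨Y, fun _ _ => hY⟩
      · exact ⟨∅, fun _ h => absurd h h2⟩
    · exact ⟨∅, fun h => absurd h h1⟩
  choose σ hσ using hσ
  have wf : WellFounded r := IsWellFounded.wf
  let D : V → R → Set V := fun w => wf.fix (fun t ih =>
    {y | y ∈ W ∧ ∀ s (h : r s t), (y ∈ σ (ih s h) ↔ w ∈ σ (ih s h))})
  have hD : ∀ w t, D w t = {y | y ∈ W ∧ ∀ s, r s t → (y ∈ σ (D w s) ↔ w ∈ σ (D w s))} := by
    intro w t
    exact wf.fix_eq _ t
  let b : V → R → Prop := fun w t => w ∈ σ (D w t)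
  have hDb : ∀ w y, b w = b y → ∀ t, D w t = D y t := by
    intro w y hb t
    induction t using wf.induction with
    | _ t ih =>
      rw [hD w t, hD y t]
      ext z
      simp only [mem_ofPred_eq]
      constructor
      · rintro ⟨h1, h2⟩
        refine ⟨h1, fun s hs' => ?_⟩
        have h3 := h2 s hs'
        have h4 : (w ∈ σ (D w s)) = (y ∈ σ (D y s)) := congrFun hb s
        rw [h4, ih s hs'] at h3
        exact h3
      · rintro ⟨h1, h2⟩
        refine ⟨h1, fun s hs' => ?_⟩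
        have h3 := h2 s hs'
        have h4 : (w ∈ σ (D w s)) = (y ∈ σ (D y s)) := congrFun hb s
        rw [← h4, ← ih s hs'] at h3
        exact h3
  have hcov : W ⊆ ⋃ β : R → Prop, {w | w ∈ W ∧ b w = β} := by
    intro w hw
    exact mem_iUnion.2 ⟨b w, hw, rfl⟩
  obtain ⟨β, hβ⟩ := hU _ (hmono _ _ hcov hW)
  have hne : ∃ w, w ∈ W ∧ b w = β := by
    by_contra hne
    push Not at hne
    apply h0
    have : {w | w ∈ W ∧ b w = β} = ∅ := by
      ext w
      simp only [mem_ofPred_eq, mem_empty_iff_false, iff_false, not_and]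
      exact hne w
    rw [this] at hβ
    exact hβ
  obtain ⟨w, hwW, hwβ⟩ := hne
  have hsub : ∀ t, {y | y ∈ W ∧ b y = β} ⊆ D w t := by
    intro t y hy
    rw [hD w t]
    refine ⟨hy.1, fun s _ => ?_⟩
    have h1 : b y = b w := hy.2.trans hwβ.symm
    have h2 : (y ∈ σ (D y s)) = (w ∈ σ (D w s)) := congrFun h1 s
    rw [← h2, hDb y w h1 s]
  have hPD : ∀ t, P (D w t) := fun t => hmono _ _ (hsub t) hβ
  have hDW : ∀ t, D w t ⊆ W := by
    intro t y hy
    rw [hD w t] at hy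
    exact hy.1
  have hspec := fun t => hσ (D w t) (hDW t) (hPD t)
  refine ⟨fun t => if w ∈ σ (D w t) then D w t \ σ (D w t) else σ (D w t), ?_, ?_⟩
  · intro t
    by_cases h : w ∈ σ (D w t)
    · simp only [h, if_true]
      exact ⟨sdiff_subset.trans (hDW t), (hspec t).2.2⟩
    · simp only [h, if_false]
      exact ⟨(hspec t).1.trans (hDW t), (hspec t).2.1⟩
  · have key : ∀ s t x, r s t → x ∈ (if w ∈ σ (D w s) then D w s \ σ (D w s) else σ (D w s)) →
        x ∈ (if w ∈ σ (D w t) then D w t \ σ (D w t) else σ (D w t)) → False := by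
      intro s t x hst hxs hxt
      have hxD : x ∈ D w t := by
        by_cases h : w ∈ σ (D w t)
        · simp only [h, if_true] at hxt
          exact hxt.1
        · simp only [h, if_false] at hxt
          exact (hspec t).1 hxt
      rw [hD w t] at hxD
      have h1 := hxD.2 s hst
      by_cases h : w ∈ σ (D w s)
      · simp only [h, if_true] at hxs
        exact hxs.2 (h1.2 h)
      · simp only [h, if_false] at hxs
        exact h (h1.1 hxs)
    intro s t x hxs hxt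
    rcases trichotomous_of r s t with h | h | h
    · exact absurd (key s t x h hxs hxt) id
    · exact h
    · exact absurd (key t s x h hxt hxs) id

end Pool.Agent.Helper25.TF
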