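import Pool.Agent.Helper25.TF.Main

/-!
# Triangle-free subgraphs: the statements in terms of Mathlib's colourings
-/

set_option autoImplicit false

open Cardinal Set

namespace Pool.Agent.Helper25.TF

universe u

/-- The subgraph of `G` induced on `W` has a proper colouring with fewer than `κ` colours; that
is, its chromatic number is less than `κ`. -/
def ChromaticLT {V : Type u} (G : SimpleGraph V) (κ : Cardinal.{u}) (W : Set V) : Prop :=
  ∃ α : Type u, #α < κ ∧ Nonempty ((G.induce W).Coloring α)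

variable {V : Type u}

theorem Sm.chromaticLT {G : SimpleGraph V} {κ : Cardinal.{u}} {W : Set V} (h : Sm G κ W) :
    ChromaticLT G κ W := by
  obtain ⟨α, hα, f, hf⟩ := h
  refine ⟨α, hα, ⟨SimpleGraph.Coloring.mk (fun x => f x.1) ?_⟩⟩
  intro x y hxy
  exact hf x.1 x.2 y.1 y.2 (by simpa using hxy)

theorem ChromaticLT.sm {G : SimpleGraph V} {κ κ' : Cardinal.{u}} {W : Set V}
    (h : ChromaticLT G κ W) (hκ : κ ≤ κ') (hκ' : ℵ₀ ≤ κ') : Sm G κ' W := by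
  classical
  obtain ⟨α, hα, ⟨c⟩⟩ := h
  refine ⟨Option α, ?_, fun x => if hx : x ∈ W then some (c ⟨x, hx⟩) else none, ?_⟩
  · rw [Cardinal.mk_option]
    exact Cardinal.add_lt_of_lt hκ' (hα.trans_le hκ) (Cardinal.one_lt_aleph0.trans_le hκ')
  · intro x hx y hy hxy h
    simp only [dif_pos hx, dif_pos hy, Option.some.injEq] at h
    exact c.valid (v := ⟨x, hx⟩) (w := ⟨y, hy⟩) (by simpa using hxy) h

theorem bad_of {G : SimpleGraph V} {μ : Cardinal.{u}}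
    (h : ¬ ∃ H : SimpleGraph V, H ≤ G ∧ H.CliqueFree 3 ∧
      ∀ α : Type u, #α < μ → IsEmpty (H.Coloring α)) {Λ : Type u} (hΛ : μ ≤ #Λ) : Bad G Λ := by
  intro H hH hfree
  by_contra hcon
  apply h
  refine ⟨H, hH, hfree, ?_⟩
  intro α hα
  by_contra hne
  rw [not_isEmpty_iff] at hne
  obtain ⟨c⟩ := hne
  obtain ⟨e⟩ := Cardinal.le_def α Λ |>.1 (hα.le.trans hΛ)
  apply hcon
  exact ⟨fun x => e (c x), fun x y hxy he => c.valid hxy (e.injective he)⟩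

theorem anticomplete (V : Type u) (G : SimpleGraph V) (μ θ : Cardinal.{u}) (hθ : θ.IsRegular)
    (hμθ : (2 : Cardinal.{u}) ^ Order.succ (max μ ℵ₀) < θ) (W : Set V)
    (hW : ¬ ChromaticLT G θ W) :
    (∃ H : SimpleGraph V, H ≤ G ∧ H.CliqueFree 3 ∧
      ∀ α : Type u, #α < μ → IsEmpty (H.Coloring α)) ∨
    ∃ Y : ℕ → Set V, (∀ n, Y n ⊆ W ∧ ¬ ChromaticLT G θ (Y n)) ∧
      ∀ m n, m ≠ n → ∀ y ∈ Y m, ∀ y' ∈ Y n, ¬ G.Adj y y' := by
  by_cases h : ∃ H : SimpleGraph V, H ≤ G ∧ H.CliqueFree 3 ∧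
      ∀ α : Type u, #α < μ → IsEmpty (H.Coloring α)
  · exact Or.inl h
  right
  obtain ⟨Λ, hΛ⟩ : ∃ Λ : Type u, #Λ = max μ ℵ₀ := ⟨(max μ ℵ₀).out, Cardinal.mk_out _⟩
  have hbad : Bad G Λ := bad_of h (by rw [hΛ]; exact le_max_left _ _)
  have hΛ0 : ℵ₀ ≤ #Λ := by rw [hΛ]; exact le_max_right _ _
  rw [← hΛ] at hμθ
  obtain ⟨Y, h1, h2⟩ := exists_seq (fun W' hW' => pair hbad hΛ0 hθ hμθ hW')
    (W := W) (fun h => hW h.chromaticLT)
  exact ⟨Y, fun n => ⟨(h1 n).1, fun h => (h1 n).2 (h.sm le_rfl hθ.1)⟩, h2⟩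

theorem rank (κ : Cardinal.{u}) (hκ : κ.IsInaccessible) (V : Type u) [LinearOrder V]
    (G : SimpleGraph V) (hG : ∀ α : Type u, #α < κ → IsEmpty (G.Coloring α))
    (θ : Cardinal.{u}) (hθ : θ < κ) (R : Type u) [LinearOrder R] [WellFoundedLT R]
    (hR : #R < κ) (rk : Finset V → R)
    (hrk : ∀ (s : Finset V) (v : V), G.IsClique (↑s : Set V) → (∀ w ∈ s, w < v ∧ G.Adj w v) →
      ChromaticLT G θ {x | ∀ w ∈ insert v s, w < x ∧ G.Adj w x} ∨ rk (insert v s) < rk s)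
    (μ : Cardinal.{u}) (hμ : μ < κ) :
    ∃ H : SimpleGraph V, H ≤ G ∧ H.CliqueFree 3 ∧
      ∀ α : Type u, #α < μ → IsEmpty (H.Coloring α) := by
  by_contra h
  obtain ⟨Λ, hΛ⟩ : ∃ Λ : Type u, #Λ = max μ ℵ₀ := ⟨(max μ ℵ₀).out, Cardinal.mk_out _⟩
  have hbad : Bad G Λ := bad_of h (by rw [hΛ]; exact le_max_left _ _)
  have hΛκ : #Λ < κ := by rw [hΛ]; exact max_lt hμ hκ.aleph0_lt
  have hb : Sm G κ univ := by
    refine rank_bound hbad hκ hΛκ (θ := max θ ℵ₀) (max_lt hθ hκ.aleph0_lt) hR rk ?_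
    intro s v hs hv s' hs'
    have e : s' = insert v s := by
      apply Finset.coe_injective
      rw [hs', Finset.coe_insert]
    rw [e]
    rcases hrk s v hs hv with h1 | h1
    · exact Or.inl (h1.sm (le_max_left _ _) (le_max_right _ _))
    · exact Or.inr h1
  obtain ⟨α, hα, f, hf⟩ := hb
  refine (hG α hα).false (SimpleGraph.Coloring.mk f ?_)
  intro x y hxy
  exact hf x (mem_univ _) y (mem_univ _) hxy

end Pool.Agent.Helper25.TF
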