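import Pool.Agent.Helper25.TF.Basic

/-!
# Triangle-free subgraphs: cliques, unsplittable sets, anticomplete pairs and the clique rank
-/

set_option autoImplicit false

open Cardinal Set

namespace Pool.Agent.Helper25.TF

universe u

variable {V : Type u}

/-- there is no clique indexed by the vertices of a triangle-free graph which has no proper
colouring with `Λ` as its set of colours -/
theorem no_clique {G : SimpleGraph V} {Λ : Type u} (hbad : Bad G Λ) {I : Type u}
    (F : SimpleGraph I) (hF3 : F.CliqueFree 3) (hF : ∀ i : I → Λ, ∃ p q, F.Adj p q ∧ i p = i q)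
    (φ : I → V) (hφ : ∀ p q, p ≠ q → G.Adj (φ p) (φ q)) : False := by
  have hinj : Function.Injective φ := by
    intro p q h
    by_contra hne
    have := hφ p q hne
    rw [h] at this
    exact G.loopless.irrefl _ this
  obtain ⟨p, q, hpq, Y, hY, Y', hY', ⟨y, hy⟩, ⟨y', hy'⟩, hno⟩ :=
    link hbad F hF3 hF (fun p => {φ p}) (by
      intro p q x h1 h2
      have h1' : x = φ p := h1
      have h2' : x = φ q := h2
      exact hinj (h1'.symm.trans h2')) (fun X => X.Nonempty) (by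
      intro p c
      exact ⟨c (φ p), φ p, rfl, rfl⟩)
  have e1 : y = φ p := hY hy
  have e2 : y' = φ q := hY' hy'
  refine hno y hy y' hy' ?_
  rw [e1, e2]
  exact hφ _ _ hpq.ne

/-- `N(v) ∩ X` -/
def nb (G : SimpleGraph V) (X : Set V) (v : V) : Set V := {x | x ∈ X ∧ G.Adj v x}

/-- if almost every vertex of `X` is adjacent to almost all of `X`, there are large cliques -/
theorem exists_clique {G : SimpleGraph V} {θ : Cardinal.{u}} (hθ : θ.IsRegular) {X Z : Set V}
    (hZX : Z ⊆ X) (hZ : ¬ Sm G θ Z) (h : ∀ v ∈ Z, Sm G θ {x | x ∈ X ∧ ¬ G.Adj v x})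
    {R : Type u} (hR : #R < θ) : ∃ φ : R → V, ∀ p q, p ≠ q → G.Adj (φ p) (φ q) := by
  classical
  have wf : WellFounded (WellOrderingRel : R → R → Prop) := IsWellFounded.wf
  have hne : ∃ z, z ∈ Z := by
    by_contra hne
    push Not at hne
    apply hZ
    have : Z = ∅ := Set.eq_empty_iff_forall_notMem.2 hne
    rw [this]
    exact Sm.empty hθ
  obtain ⟨z₀, hz₀⟩ := hne
  let S : (t : R) → ((s : R) → WellOrderingRel s t → V) → Set V := fun t ih =>
    {x | x ∈ Z ∧ ∀ s (h : WellOrderingRel s t), G.Adj (ih s h) x}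
  let φ : R → V := wf.fix (fun t ih => if h : (S t ih).Nonempty then h.choose else z₀)
  have hφ : ∀ t, φ t = if h : (S t (fun s _ => φ s)).Nonempty then h.choose else z₀ := by
    intro t
    exact wf.fix_eq _ t
  have key : ∀ t, φ t ∈ Z ∧ ∀ s, WellOrderingRel s t → G.Adj (φ s) (φ t) := by
    intro t
    induction t using wf.induction with
    | _ t ih =>
      have hnonempty : (S t (fun s _ => φ s)).Nonempty := by
        by_contra hemp
        apply hZ
        have hsm : Sm G θ (⋃ s : {s : R // WellOrderingRel s t},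
            {x | x ∈ X ∧ ¬ G.Adj (φ s.1) x}) := by
          refine Sm.iUnion hθ ((Cardinal.mk_subtype_le _).trans_lt hR) ?_
          intro s
          exact h (φ s.1) (ih s.1 s.2).1
        refine hsm.mono ?_
        intro x hx
        by_contra hx'
        apply hemp
        refine ⟨x, hx, fun s hs => ?_⟩
        by_contra hadj
        exact hx' (mem_iUnion.2 ⟨⟨s, hs⟩, hZX hx, hadj⟩)
      have hsp := hnonempty.choose_spec
      rw [hφ t, dif_pos hnonempty]
      exact ⟨hsp.1, fun s hs => hsp.2 s hs⟩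
  refine ⟨φ, ?_⟩
  intro p q hpq
  rcases trichotomous_of (WellOrderingRel : R → R → Prop) p q with h1 | h1 | h1
  · exact (key q).2 p h1
  · exact absurd h1 hpq
  · exact ((key p).2 q h1).symm

/-- in an unsplittable set which is not small, the set of vertices with a small neighbourhood
is not small, and its complement is small -/
theorem unsplit_aux {G : SimpleGraph V} {Λ : Type u} (hbad : Bad G Λ) {I : Type u}
    (F : SimpleGraph I) (hF3 : F.CliqueFree 3) (hF : ∀ i : I → Λ, ∃ p q, F.Adj p q ∧ i p = i q)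
    {θ : Cardinal.{u}} (hθ : θ.IsRegular) (hI : #I < θ) {X : Set V} (hX : ¬ Sm G θ X)
    (huns : ∀ Y ⊆ X, Sm G θ Y ∨ Sm G θ (X \ Y)) :
    Sm G θ (X \ {v | v ∈ X ∧ Sm G θ (nb G X v)}) := by
  rcases huns {v | v ∈ X ∧ Sm G θ (nb G X v)} (fun v hv => hv.1) with h | h
  · exfalso
    have hZ : ¬ Sm G θ (X \ {v | v ∈ X ∧ Sm G θ (nb G X v)}) := by
      intro h2
      apply hX
      refine (Sm.union hθ h h2).mono ?_
      intro x hx
      by_cases hx' : x ∈ {v | v ∈ X ∧ Sm G θ (nb G X v)}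
      · exact Or.inl hx'
      · exact Or.inr ⟨hx, hx'⟩
    obtain ⟨φ, hφ⟩ := exists_clique hθ sdiff_subset hZ (by
      intro v hv
      rcases huns (nb G X v) (fun x hx => hx.1) with h3 | h3
      · exact absurd ⟨hv.1, h3⟩ hv.2
      · refine h3.mono ?_
        rintro x ⟨hx1, hx2⟩
        exact ⟨hx1, fun hx3 => hx2 hx3.2⟩) hI
    exact no_clique hbad F hF3 hF φ hφ
  · exact h

/-- a type of cardinality `#(Iio i)` -/
theorem exists_Iio {κ : Cardinal.{u}} {c : Cardinal.{u}} (h : c < κ) :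
    ∃ i : κ.ord.ToType, c ≤ #(Iio i) := by
  have h1 : c.ord < κ.ord := Cardinal.ord_lt_ord.2 h
  have h2 : c.ord < Ordinal.type (α := κ.ord.ToType) (· < ·) := by
    rwa [Ordinal.type_toType]
  refine ⟨Ordinal.enum (α := κ.ord.ToType) (· < ·) ⟨c.ord, h2⟩, ?_⟩
  have h3 : Ordinal.typein (α := κ.ord.ToType) (· < ·)
      (Ordinal.enum (α := κ.ord.ToType) (· < ·) ⟨c.ord, h2⟩) = c.ord :=
    Ordinal.typein_enum _ h2
  have h4 : (Ordinal.typein (α := κ.ord.ToType) (· < ·)
      (Ordinal.enum (α := κ.ord.ToType) (· < ·) ⟨c.ord, h2⟩)).card = c := by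
    rw [h3, Cardinal.card_ord]
  exact h4.symm.le

theorem Iio_lt {κ : Cardinal.{u}} (i : κ.ord.ToType) : #(Iio i) < κ := by
  simpa using mk_Iio_lt i

/-- in an unsplittable set, a function with values in a product of fewer than `θ` sets of fewer
than `θ` elements is constant on a set which is not small -/
theorem exists_const {G : SimpleGraph V} {θ : Cardinal.{u}} (hθ : θ.IsRegular) {X Z : Set V}
    (hZX : Z ⊆ X) (hZ : ¬ Sm G θ Z) (huns : ∀ Y ⊆ X, Sm G θ Y ∨ Sm G θ (X \ Y))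
    {m Λ : Type u} (hm : #m < θ) (hΛ : #Λ < θ) (c : V → m → Λ) :
    ∃ a : m → Λ, ¬ Sm G θ {x | x ∈ Z ∧ c x = a} := by
  have h1 : ∀ j : m, ∃ l : Λ, ¬ Sm G θ {x | x ∈ Z ∧ c x j = l} := by
    intro j
    by_contra hcon
    push Not at hcon
    apply hZ
    refine (Sm.iUnion hθ hΛ hcon).mono ?_
    intro x hx
    exact mem_iUnion.2 ⟨c x j, hx, rfl⟩
  choose a ha using h1
  refine ⟨a, fun hsm => hZ ?_⟩
  have h2 : ∀ j : m, Sm G θ (Z \ {x | x ∈ Z ∧ c x j = a j}) := by
    intro j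
    rcases huns {x | x ∈ Z ∧ c x j = a j} (fun x hx => hZX hx.1) with h | h
    · exact absurd h (ha j)
    · exact h.mono (sdiff_subset_sdiff_left hZX)
  refine (Sm.union hθ hsm (Sm.iUnion hθ hm h2)).mono ?_
  intro x hx
  by_cases h : c x = a
  · exact Or.inl ⟨hx, h⟩
  · right
    obtain ⟨j, hj⟩ := Function.ne_iff.1 h
    exact mem_iUnion.2 ⟨j, hx, fun h' => hj h'.2⟩

/-- there are no unsplittable sets -/
theorem no_unsplit {G : SimpleGraph V} {Λ : Type u} (hbad : Bad G Λ) {I : Type u}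
    (F : SimpleGraph I) (hF3 : F.CliqueFree 3) (hF : ∀ i : I → Λ, ∃ p q, F.Adj p q ∧ i p = i q)
    {κ : Cardinal.{u}} (hreg : κ.IsRegular) (hI : #I < κ) (hΛ : #Λ < κ) {X : Set V}
    (hX : ¬ Sm G κ X) (huns : ∀ Y ⊆ X, Sm G κ Y ∨ Sm G κ (X \ Y)) : False := by
  classical
  let _ : LinearOrder V := linearOrderOfSTO WellOrderingRel
  have h1 := unsplit_aux hbad F hF3 hF hreg hI hX huns
  set D : Set V := {v | v ∈ X ∧ Sm G κ (nb G X v)} with hD
  have hDX : D ⊆ X := fun v hv => hv.1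
  have hDZ : ∀ Z : Set V, Sm G κ Z → ¬ Sm G κ (D \ Z) := by
    intro Z hZ hDZ
    apply hX
    refine (Sm.union hreg h1 (Sm.union hreg hZ hDZ)).mono ?_
    intro x hx
    by_cases hxD : x ∈ D
    · by_cases hxZ : x ∈ Z
      · exact Or.inr (Or.inl hxZ)
      · exact Or.inr (Or.inr ⟨hxD, hxZ⟩)
    · exact Or.inl ⟨hx, hxD⟩
  have hone : ∀ Z ⊆ D, ¬ Sm G κ Z → ∀ i : κ.ord.ToType, ∃ Y ⊆ Z, Sm G κ Y ∧
      ¬ ColOn G Y (Iio i) := by
    intro Z hZD hZ i
    by_contra hcon
    push Not at hcon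
    obtain ⟨c, hc⟩ : ColOn G Z ((Iio i) → Λ) := by
      refine rodl hbad _ _ ?_
      intro v hv
      refine hcon _ (fun x hx => hx.1) ?_
      refine (hZD hv).2.mono ?_
      rintro x ⟨hx1, -, hx2⟩
      exact ⟨hDX (hZD hx1), hx2⟩
    obtain ⟨a, ha⟩ := exists_const hreg (hZD.trans hDX) hZ huns (Iio_lt i) hΛ c
    apply ha
    refine ⟨PUnit, (Cardinal.lt_aleph0_of_finite _).trans_le hreg.1, fun _ => PUnit.unit, ?_⟩
    intro x hx y hy hxy
    exact absurd (hx.2.trans hy.2.symm) (hc x hx.1 y hy.1 hxy)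
  have htwo : ∀ Z : Set V, Sm G κ Z → ∀ i : κ.ord.ToType, ∃ Y : Set V × Set V,
      (Y.1 ⊆ D \ Z ∧ Sm G κ Y.1 ∧ ¬ ColOn G Y.1 (Iio i)) ∧
      (Y.2 ⊆ D \ (Z ∪ Y.1) ∧ Sm G κ Y.2 ∧ ¬ ColOn G Y.2 (Iio i)) := by
    intro Z hZ i
    obtain ⟨Y, hY1, hY2, hY3⟩ := hone (D \ Z) sdiff_subset (hDZ Z hZ) i
    obtain ⟨Y', hY1', hY2', hY3'⟩ := hone (D \ (Z ∪ Y)) sdiff_subset
      (hDZ _ (Sm.union hreg hZ hY2)) i
    exact ⟨(Y, Y'), ⟨hY1, hY2, hY3⟩, hY1', hY2', hY3'⟩
  have wf : WellFounded (fun i j : κ.ord.ToType => i < j) := wellFounded_lt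
  let F : κ.ord.ToType → Set V × Set V := wf.fix (fun i ih =>
    if h : Sm G κ (⋃ j : Iio i, ((ih j.1 j.2).1 ∪ (ih j.1 j.2).2)) then
      (htwo _ h i).choose else (∅, ∅))
  have hF : ∀ i, F i = if h : Sm G κ (⋃ j : Iio i, ((F j.1).1 ∪ (F j.1).2)) then
      (htwo _ h i).choose else (∅, ∅) := by
    intro i
    exact wf.fix_eq _ i
  have hsmall : ∀ i, Sm G κ (⋃ j : Iio i, ((F j.1).1 ∪ (F j.1).2)) := by
    intro i
    induction i using wf.induction with
    | _ i ih =>
      refine Sm.iUnion hreg (Iio_lt i) ?_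
      rintro ⟨j, hj⟩
      have h3 := ih j hj
      have h4 := (htwo _ h3 j).choose_spec
      have h5 : F j = (htwo _ h3 j).choose := by rw [hF j, dif_pos h3]
      rw [← h5] at h4
      exact Sm.union hreg h4.1.2.1 h4.2.2.1
  have hspec : ∀ i, ((F i).1 ⊆ D \ (⋃ j : Iio i, ((F j.1).1 ∪ (F j.1).2)) ∧ Sm G κ (F i).1 ∧
      ¬ ColOn G (F i).1 (Iio i)) ∧
      ((F i).2 ⊆ D \ ((⋃ j : Iio i, ((F j.1).1 ∪ (F j.1).2)) ∪ (F i).1) ∧ Sm G κ (F i).2 ∧
      ¬ ColOn G (F i).2 (Iio i)) := by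
    intro i
    have h4 := (htwo _ (hsmall i) i).choose_spec
    have h5 : F i = (htwo _ (hsmall i) i).choose := by rw [hF i, dif_pos (hsmall i)]
    rw [← h5] at h4
    exact h4
  have hA0 : ¬ Sm G κ (⋃ i, (F i).1) := by
    rintro ⟨α, hα, hcol⟩
    obtain ⟨i, hi⟩ := exists_Iio hα
    exact (hspec i).1.2.2 ((hcol.mono (subset_iUnion _ i)).of_card_le hi)
  have hA1 : ¬ Sm G κ (⋃ i, (F i).2) := by
    rintro ⟨α, hα, hcol⟩
    obtain ⟨i, hi⟩ := exists_Iio hα
    exact (hspec i).2.2.2 ((hcol.mono (subset_iUnion _ i)).of_card_le hi)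
  have hA0X : (⋃ i, (F i).1) ⊆ X :=
    iUnion_subset fun i => ((hspec i).1.1.trans sdiff_subset).trans hDX
  rcases huns _ hA0X with h3 | h3
  · exact hA0 h3
  · apply hA1
    refine h3.mono ?_
    intro x hx
    obtain ⟨i, hi⟩ := mem_iUnion.1 hx
    refine ⟨hDX ((hspec i).2.1 hi).1, ?_⟩
    intro hx0
    obtain ⟨j, hj⟩ := mem_iUnion.1 hx0
    rcases lt_trichotomy i j with hij | hij | hij
    · exact ((hspec j).1.1 hj).2 (mem_iUnion.2 ⟨⟨i, hij⟩, Or.inr hi⟩)
    · subst hij
      exact ((hspec i).2.1 hi).2 (Or.inr hj)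
    · exact ((hspec i).2.1 hi).2 (Or.inl (mem_iUnion.2 ⟨⟨j, hij⟩, Or.inl hj⟩))

/-- two anticomplete sets which are not small, inside `W` -/
def Pair (G : SimpleGraph V) (κ : Cardinal.{u}) (W : Set V) : Prop :=
  ∃ Y ⊆ W, ∃ Y' ⊆ W, ¬ Sm G κ Y ∧ ¬ Sm G κ Y' ∧ ∀ y ∈ Y, ∀ y' ∈ Y', ¬ G.Adj y y'

/-- a large family of disjoint sets which are not small contains an anticomplete pair -/
theorem pair_of_family {G : SimpleGraph V} {Λ : Type u} (hbad : Bad G Λ) {I : Type u}
    (F : SimpleGraph I) (hF3 : F.CliqueFree 3) (hF : ∀ i : I → Λ, ∃ p q, F.Adj p q ∧ i p = i q)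
    {θ : Cardinal.{u}} (hθ : θ.IsRegular) (hΛ : #Λ < θ) {W : Set V} (A : I → Set V)
    (hA : ∀ t, A t ⊆ W ∧ ¬ Sm G θ (A t)) (hdisj : ∀ s t x, x ∈ A s → x ∈ A t → s = t) :
    Pair G θ W := by
  obtain ⟨p, q, -, Y, hY, Y', hY', hPY, hPY', hno⟩ :=
    link hbad F hF3 hF A hdisj (fun X => ¬ Sm G θ X) (by
      intro p c
      by_contra hcon
      push Not at hcon
      apply (hA p).2
      refine (Sm.iUnion hθ hΛ hcon).mono ?_
      intro x hx
      exact mem_iUnion.2 ⟨c x, hx, rfl⟩)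
  exact ⟨Y, hY.trans (hA p).1, Y', hY'.trans (hA q).1, hPY, hPY', hno⟩

/-- if nothing in `W` is unsplittable, there is an anticomplete pair -/
theorem pair_of_split {G : SimpleGraph V} {Λ : Type u} (hbad : Bad G Λ) {I : Type u}
    (F : SimpleGraph I) (hF3 : F.CliqueFree 3) (hF : ∀ i : I → Λ, ∃ p q, F.Adj p q ∧ i p = i q)
    {θ : Cardinal.{u}} (hθ : θ.IsRegular) (hΛ : #Λ < θ) (hI : #(I → Prop) < θ) {W : Set V}
    (hW : ¬ Sm G θ W)
    (hs : ∀ X ⊆ W, ¬ Sm G θ X → ∃ Y ⊆ X, ¬ Sm G θ Y ∧ ¬ Sm G θ (X \ Y)) : Pair G θ W := by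
  obtain ⟨A, hA, hdisj⟩ := split (fun X => ¬ Sm G θ X)
    (fun X Y hXY hX hY => hX (hY.mono hXY)) (fun h => h (Sm.empty hθ))
    (WellOrderingRel : I → I → Prop) (by
      intro X hX
      by_contra hcon
      push Not at hcon
      exact hX (Sm.iUnion hθ hI hcon)) W hW hs
  exact pair_of_family hbad F hF3 hF hθ hΛ A hA hdisj

/-- the type of the ordinals below `(#Λ)⁺` -/
abbrev TT (Λ : Type u) : Type u := (Order.succ #Λ).ord.ToType

theorem mk_TT (Λ : Type u) : #(TT Λ) = Order.succ #Λ := Cardinal.mk_ord_toType _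

theorem nonempty_TT (Λ : Type u) : Nonempty (TT Λ) := by
  rw [← Cardinal.mk_ne_zero_iff, mk_TT]
  exact (Order.succ_le_iff.1 (le_refl (Order.succ #Λ))).ne_bot

theorem mk_TT3 (Λ : Type u) (hΛ : ℵ₀ ≤ #Λ) : #(TT Λ × TT Λ × TT Λ) = Order.succ #Λ := by
  have h : ℵ₀ ≤ Order.succ #Λ := hΛ.trans (Order.le_succ _)
  simp only [Cardinal.mk_prod, Cardinal.lift_id, mk_TT]
  rw [Cardinal.mul_eq_self h, Cardinal.mul_eq_self h]

theorem TT_fibre (Λ : Type u) (hΛ : ℵ₀ ≤ #Λ) (f : TT Λ → Λ) :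
    ∃ j, ∀ s, ∃ t, s < t ∧ f t = j := by
  classical
  have hreg : (Order.succ #Λ).IsRegular := Cardinal.isRegular_succ hΛ
  by_contra hcon
  push Not at hcon
  choose g hg using hcon
  have hlt : #(⋃ j : Λ, Iic (g j)) < Order.succ #Λ := by
    refine (Cardinal.mk_iUnion_le_sum_mk).trans_lt ?_
    refine Cardinal.sum_lt_of_isRegular hreg (Order.lt_succ _) ?_
    intro j
    have h1 : #(Iic (g j)) ≤ #(Iio (g j)) + 1 := by
      have : Iic (g j) = Iio (g j) ∪ {g j} := by
        ext x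
        simp [le_iff_lt_or_eq]
      rw [this]
      refine (Cardinal.mk_union_le _ _).trans ?_
      simp
    refine h1.trans_lt (Cardinal.add_lt_of_lt hreg.1 (Iio_lt (g j)) ?_)
    exact Cardinal.one_lt_aleph0.trans_le hreg.1
  have huniv : (⋃ j : Λ, Iic (g j)) = (univ : Set (TT Λ)) := by
    refine eq_univ_of_forall fun t => mem_iUnion.2 ⟨f t, ?_⟩
    by_contra h
    exact hg (f t) t (not_le.1 h) rfl
  rw [huniv, Cardinal.mk_univ, mk_TT] at hlt
  exact lt_irrefl _ hlt

theorem pair {G : SimpleGraph V} {Λ : Type u} (hbad : Bad G Λ) (hΛ0 : ℵ₀ ≤ #Λ)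
    {θ : Cardinal.{u}} (hθ : θ.IsRegular) (hΛθ : (2 : Cardinal.{u}) ^ (Order.succ #Λ) < θ)
    {W : Set V} (hW : ¬ Sm G θ W) : Pair G θ W := by
  classical
  have := nonempty_TT Λ
  have h1 : Order.succ #Λ < θ := (Cardinal.cantor _).trans hΛθ
  have hΛ : #Λ < θ := (Order.lt_succ _).trans h1
  have h2 : #(TT Λ × TT Λ × TT Λ) < θ := by
    rw [mk_TT3 Λ hΛ0]
    exact h1
  have h3 : #((TT Λ × TT Λ × TT Λ) → Prop) < θ := by
    have e1 : #((TT Λ × TT Λ × TT Λ) → Prop) = 2 ^ #(TT Λ × TT Λ × TT Λ) := by simp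
    rw [e1, mk_TT3 Λ hΛ0]
    exact hΛθ
  refine pair_of_split hbad (specker (TT Λ)) (specker_free _) (specker_col (TT_fibre Λ hΛ0))
    hθ hΛ h3 hW ?_
  intro X _ hX
  by_contra hcon
  push Not at hcon
  refine no_unsplit hbad (specker (TT Λ)) (specker_free _) (specker_col (TT_fibre Λ hΛ0))
    hθ h2 hΛ hX ?_
  intro Y hY
  by_cases hYs : Sm G θ Y
  · exact Or.inl hYs
  · exact Or.inr (hcon Y hY hYs)

/-- infinitely many pairwise anticomplete sets -/
theorem exists_seq {G : SimpleGraph V} {κ : Cardinal.{u}}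
    (hpair : ∀ W : Set V, ¬ Sm G κ W → Pair G κ W) {W : Set V} (hW : ¬ Sm G κ W) :
    ∃ Y : ℕ → Set V, (∀ n, Y n ⊆ W ∧ ¬ Sm G κ (Y n)) ∧
      ∀ m n, m ≠ n → ∀ y ∈ Y m, ∀ y' ∈ Y n, ¬ G.Adj y y' := by
  classical
  choose! L hL R' hR hLs hRs hno using hpair
  let S : ℕ → Set V := fun n => Nat.rec W (fun _ X => R' X) n
  have hS0 : S 0 = W := rfl
  have hSs : ∀ n, S (n + 1) = R' (S n) := fun n => rfl
  have hSn : ∀ n, ¬ Sm G κ (S n) := by
    intro n
    induction n with
    | zero => exact hW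
    | succ n ih =>
      rw [hSs n]
      exact hRs (S n) ih
  have hmono : ∀ m n, m ≤ n → S n ⊆ S m := by
    intro m n hmn
    induction n, hmn using Nat.le_induction with
    | base => exact Subset.rfl
    | succ n _ ih =>
      rw [hSs n]
      exact (hR (S n) (hSn n)).trans ih
  refine ⟨fun n => L (S n), ?_, ?_⟩
  · intro n
    exact ⟨(hL (S n) (hSn n)).trans (hmono 0 n (Nat.zero_le n)), hLs (S n) (hSn n)⟩
  · have key : ∀ m n, m < n → ∀ y ∈ L (S m), ∀ y' ∈ L (S n), ¬ G.Adj y y' := by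
      intro m n hmn y hy y' hy'
      have h1 : L (S n) ⊆ R' (S m) := by
        refine (hL (S n) (hSn n)).trans ?_
        have := hmono (m + 1) n hmn
        rwa [hSs m] at this
      exact hno (S m) (hSn m) y hy y' (h1 hy')
    intro m n hmn y hy y' hy'
    rcases lt_or_gt_of_ne hmn with h | h
    · exact key m n h y hy y' hy'
    · intro hadj
      exact key n m h y' hy' y hy hadj.symm

/-- the common forward neighbours of a finite set -/
def fwd [LinearOrder V] (G : SimpleGraph V) (s : Finset V) : Set V :=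
  {x | ∀ v ∈ s, v < x ∧ G.Adj v x}

/-- the clique rank theorem -/
theorem rank_bound [LinearOrder V] {G : SimpleGraph V} {Λ : Type u} (hbad : Bad G Λ)
    {κ : Cardinal.{u}} (hκ : κ.IsInaccessible) (hΛ : #Λ < κ) {θ : Cardinal.{u}} (hθ : θ < κ)
    {R : Type u} [LinearOrder R] [WellFoundedLT R] (hR : #R < κ) (rk : Finset V → R)
    (hrk : ∀ (s : Finset V) (v : V), G.IsClique (↑s : Set V) → v ∈ fwd G s →
      ∀ s' : Finset V, (↑s' : Set V) = insert v (↑s : Set V) →
      Sm G θ (fwd G s') ∨ rk s' < rk s) : Sm G κ univ := by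
  classical
  have hreg : κ.IsRegular := hκ.isRegular
  have hmain : ∀ t : R, ∃ M : Type u, #M < κ ∧ ∀ s : Finset V, G.IsClique (↑s : Set V) →
      rk s = t → ColOn G (fwd G s) M := by
    intro t
    induction t using WellFoundedLT.induction with
    | ind t ih =>
      choose! M hM hcol using ih
      -- colours: one block for the small extensions, one block for each lower rank
      obtain ⟨Θ, hΘ⟩ : ∃ Θ : Type u, #Θ = θ := ⟨θ.out, Cardinal.mk_out θ⟩
      have hpow : ∀ m : Type u, #m < κ → #(m → Λ) < κ := by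
        intro m hm
        have e1 : #(m → Λ) = #Λ ^ #m := (Cardinal.power_def Λ m).symm
        rw [e1]
        calc #Λ ^ #m ≤ (2 ^ #Λ) ^ #m :=
              Cardinal.power_le_power_right (Cardinal.cantor _).le
          _ = 2 ^ (#Λ * #m) := by rw [Cardinal.power_mul]
          _ < κ := hκ.isStrongLimit.isStrongPrelimit (Cardinal.mul_lt_of_lt hreg.1 hΛ hm)
      have hone : (1 : Cardinal.{u}) < κ := Cardinal.one_lt_aleph0.trans_le hreg.1
      refine ⟨Option ((Θ → Λ) ⊕ (Σ r : Iio t, (M r.1 → Λ))), ?_, ?_⟩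
      · rw [Cardinal.mk_option, Cardinal.mk_sum, Cardinal.lift_id, Cardinal.lift_id,
          Cardinal.mk_sigma]
        refine Cardinal.add_lt_of_lt hreg.1 (Cardinal.add_lt_of_lt hreg.1
          (hpow Θ (by rw [hΘ]; exact hθ)) ?_) hone
        refine Cardinal.sum_lt_of_isRegular hreg ((Cardinal.mk_subtype_le _).trans_lt hR) ?_
        rintro ⟨r, hr⟩
        exact hpow _ (hM r hr)
      · intro s hs hst
        -- the two kinds of extensions
        let E : V → Finset V := fun v => insert v s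
        have hEcl : ∀ v ∈ fwd G s, G.IsClique (↑(E v) : Set V) := by
          intro v hv
          simp only [E, Finset.coe_insert]
          rw [SimpleGraph.isClique_insert]
          exact ⟨hs, fun w hw _ => (hv w hw).2.symm⟩
        have hsub : ∀ v ∈ fwd G s, ∀ W : Set V, W ⊆ fwd G s →
            {x | x ∈ W ∧ v < x ∧ G.Adj v x} ⊆ fwd G (E v) := by
          intro v _ W hW x hx w hw
          rcases Finset.mem_insert.1 hw with rfl | hw
          · exact hx.2
          · exact hW hx.1 w hw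
        obtain ⟨f0, hf0⟩ : ColOn G {v | v ∈ fwd G s ∧ Sm G θ (fwd G (E v))} (Θ → Λ) := by
          refine rodl hbad _ _ ?_
          intro v hv
          obtain ⟨α, hα, hc⟩ := hv.2
          refine (hc.mono (hsub v hv.1 _ (fun x hx => hx.1))).of_card_le ?_
          rw [hΘ]
          exact hα.le
        have hf1 : ∀ r : Iio t, ColOn G {v | v ∈ fwd G s ∧ rk (E v) = r.1} (M r.1 → Λ) := by
          rintro ⟨r, hr⟩
          refine rodl hbad _ _ ?_
          intro v hv
          exact (hcol r hr (E v) (hEcl v hv.1) hv.2).mono (hsub v hv.1 _ (fun x hx => hx.1))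
        choose f1 hf1 using hf1
        refine ⟨fun v => if h0 : Sm G θ (fwd G (E v)) then some (Sum.inl (f0 v)) else
          if h : rk (E v) < t then some (Sum.inr ⟨⟨rk (E v), h⟩, f1 ⟨rk (E v), h⟩ v⟩) else none,
          ?_⟩
        intro x hx y hy hxy he
        have hcase : ∀ v ∈ fwd G s, ¬ Sm G θ (fwd G (E v)) → rk (E v) < t := by
          intro v hv hns
          have := hrk s v hs hv (E v) (by simp [E])
          rw [hst] at this
          exact this.resolve_left hns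
        by_cases hx0 : Sm G θ (fwd G (E x))
        · by_cases hy0 : Sm G θ (fwd G (E y))
          · simp only [dif_pos hx0, dif_pos hy0, Option.some.injEq, Sum.inl.injEq] at he
            exact hf0 x ⟨hx, hx0⟩ y ⟨hy, hy0⟩ hxy he
          · have h1 := hcase y hy hy0
            simp only [dif_pos hx0, dif_neg hy0, dif_pos h1, Option.some.injEq] at he
            exact absurd he (by simp)
        · have h2 := hcase x hx hx0
          by_cases hy0 : Sm G θ (fwd G (E y))
          · simp only [dif_neg hx0, dif_pos h2, dif_pos hy0, Option.some.injEq] at he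
            exact absurd he (by simp)
          · have h1 := hcase y hy hy0
            simp only [dif_neg hx0, dif_pos h2, dif_neg hy0, dif_pos h1, Option.some.injEq,
              Sum.inr.injEq] at he
            have hr : rk (E x) = rk (E y) := by
              have := congrArg (fun z => z.1.1) he
              exact this
            have key : ∀ (p q : Iio t) (hpq : p = q) (a : M p.1 → Λ) (b : M q.1 → Λ),
                (⟨p, a⟩ : Σ r : Iio t, (M r.1 → Λ)) = ⟨q, b⟩ → HEq a b := by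
              intro p q _ a b h
              exact (Sigma.mk.inj h).2
            have hheq := key _ _ (Subtype.ext hr) _ _ he
            have : ∀ (p q : Iio t), p = q → HEq (f1 p x) (f1 q y) →
                f1 p x = f1 p y := by
              intro p q hpq h
              subst hpq
              exact eq_of_heq h
            exact hf1 ⟨rk (E x), h2⟩ x ⟨hx, rfl⟩ y ⟨hy, hr.symm⟩ hxy
              (this _ _ (Subtype.ext hr) hheq)
  obtain ⟨M, hM, hcol⟩ := hmain (rk ∅)
  refine ⟨M, hM, (hcol ∅ (by simp) rfl).mono ?_⟩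
  intro x _ v hv
  simp at hv

end Pool.Agent.Helper25.TF
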